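import Pool.Agent.H76.CL.Form

/-!
# A Chen type theorem for Cunningham chains
-/

set_option autoImplicit false

namespace Pool.Agent.Results.MP_c183ae_nt.ChenCunningham

open Finset Pool.Agent.H76.CL

theorem iter_first (l n : ℕ) : (((fun q : ℕ => 2 * q + 1)^[l] n : ℕ) : ℤ) = 2 ^ l * n + (2 ^ l - 1) := by
  induction l with
  | zero => simp
  | succ l ih =>
    rw [Function.iterate_succ_apply']
    push_cast
    rw [ih]
    ring

theorem iter_second (l : ℕ) {n : ℕ} (hn : 1 ≤ n) :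
    (((fun q : ℕ => 2 * q - 1)^[l] n : ℕ) : ℤ) = 2 ^ l * n - (2 ^ l - 1) ∧ 1 ≤ (fun q : ℕ => 2 * q - 1)^[l] n := by
  induction l with
  | zero => simpa using hn
  | succ l ih =>
    rw [Function.iterate_succ_apply']
    obtain ⟨h1, h2⟩ := ih
    constructor
    · show ((2 * ((fun q : ℕ => 2 * q - 1)^[l] n) - 1 : ℕ) : ℤ) = _
      rw [Nat.cast_sub (by omega)]
      push_cast
      rw [h1]
      ring
    · show 1 ≤ 2 * ((fun q : ℕ => 2 * q - 1)^[l] n) - 1
      omega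

/-- **A Chen type theorem for Cunningham chains.**  Let `k ≥ 2` and `θ > 0`.  There are `c, ε > 0`, `r` and `x₀` such
that for all `x ≥ x₀` and `y ≤ (1 - θ) x`, for both kinds of chains (`q ↦ 2 q + 1` and `q ↦ 2 q - 1`) and all `i ≠ j`
below `k`: for at least `c x / (log x) ^ k` of the integers `y < n ≤ x`, in the chain of length `k` starting at `n` the
term with the index `i` is a prime, the term with the index `j` is a prime or a product of two primes, both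
`≥ x ^ (1 / 8)`, and all the `k` terms have at most `r` prime factors, all of them `≥ x ^ ε`. -/
theorem result : ∀ k : ℕ, 2 ≤ k → ∀ θ : ℝ, 0 < θ →
    ∃ c ε : ℝ, 0 < c ∧ 0 < ε ∧ ∃ r x₀ : ℕ, ∀ x : ℕ, x₀ ≤ x → ∀ y : ℕ, (y : ℝ) + θ * x ≤ x →
      ∀ f : ℕ → ℕ, (f = (fun q => 2 * q + 1) ∨ f = (fun q => 2 * q - 1)) →
      ∀ i < k, ∀ j < k, i ≠ j →
        c * x / Real.log x ^ k ≤
          ({n : ℕ | y < n ∧ n ≤ x ∧ (f^[i] n).Prime ∧
            (f^[j] n).primeFactorsList.length ≤ 2 ∧ (∀ q ∈ (f^[j] n).primeFactors, (x : ℝ) ^ (1 / 8 : ℝ) ≤ q) ∧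
            ∀ l < k, (f^[l] n).primeFactorsList.length ≤ r ∧
              ∀ q ∈ (f^[l] n).primeFactors, (x : ℝ) ^ ε ≤ q}.ncard : ℝ) := by
  classical
  intro k hk θ hθ
  obtain ⟨ε, c, hε0, hε1, hc, r, B₀, hB₀⟩ := chen_pos k (2 ^ k) hk Nat.one_le_two_pow θ hθ
  refine ⟨c, ε, hc, hε0, r, B₀ + 2, ?_⟩
  intro x hx y hy f hf i hi j hj hij
  obtain ⟨δ, hδ, hfv⟩ : ∃ δ : ℤ, (δ = 1 ∨ δ = -1) ∧ ∀ l n : ℕ, 1 ≤ n →
      ((f^[l] n : ℕ) : ℤ) = 2 ^ l * n + δ * (2 ^ l - 1) := by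
    rcases hf with rfl | rfl
    · refine ⟨1, Or.inl rfl, fun l n _ => ?_⟩
      rw [iter_first]
      ring
    · refine ⟨-1, Or.inr rfl, fun l n hn => ?_⟩
      rw [(iter_second l hn).1]
      ring
  set F : ℕ → ℤ × ℤ := fun l => ((2 : ℤ) ^ l, δ * (2 ^ l - 1)) with hF
  set G : Finset (ℤ × ℤ) := (range k).image F with hG
  have hmem : ∀ l < k, F l ∈ G := fun l hl => mem_image_of_mem _ (mem_range.2 hl)
  have hval : ∀ l n : ℕ, 1 ≤ n → val (F l) n = ((f^[l] n : ℕ) : ℤ) := by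
    intro l n hn
    rw [hfv l n hn]
    rfl
  have hpw1 : ∀ l : ℕ, (1 : ℤ) ≤ 2 ^ l := fun l => one_le_pow₀ (by norm_num)
  have hpwk : ∀ l < k, (2 : ℤ) ^ l ≤ 2 ^ k := fun l hl => pow_le_pow_right₀ (by norm_num) hl.le
  have hpwinj : ∀ a b : ℕ, (2 : ℤ) ^ a = 2 ^ b → a = b := by
    intro a b hab
    have h1 : (2 : ℕ) ^ a = 2 ^ b := by exact_mod_cast hab
    exact Nat.pow_right_injective (le_refl 2) h1
  have hinj : Function.Injective F := by
    intro a b hab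
    rw [hF] at hab
    simp only [Prod.mk.injEq] at hab
    exact hpwinj a b hab.1
  have habs : ∀ l : ℕ, |(F l).2| ≤ 2 ^ l := by
    intro l
    have h1 := hpw1 l
    show |δ * (2 ^ l - 1)| ≤ 2 ^ l
    rw [abs_mul]
    have h2 : |δ| = 1 := by rcases hδ with rfl | rfl <;> simp
    rw [h2, one_mul, abs_of_nonneg (by linarith)]
    linarith
  have hx1 : (1 : ℤ) ≤ x := by exact_mod_cast (by omega : 1 ≤ x)
  have hx2 : (2 : ℤ) ≤ x := by exact_mod_cast (by omega : 2 ≤ x)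
  have hKB : ∀ l < k, |(F l).2| ≤ ((2 ^ k : ℕ) : ℤ) * x := by
    intro l hl
    refine (habs l).trans ((hpwk l hl).trans ?_)
    push_cast
    exact le_mul_of_one_le_right (by positivity) hx1
  have hp1 : ∀ l : ℕ, 1 ≤ (F l).1 + (F l).2 := by
    intro l
    show 1 ≤ (2 : ℤ) ^ l + δ * (2 ^ l - 1)
    have := hpw1 l
    rcases hδ with rfl | rfl
    · linarith
    · linarith
  have hmain := (hB₀ x (by omega) y hy G (by
      refine card_image_le.trans ?_
      rw [card_range]) (F i) (hmem i hi) (F j) (hmem j hj) (fun he => hij (hinj he))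
    (by
      intro g hg
      rw [hG, mem_image] at hg
      obtain ⟨l, hl, rfl⟩ := hg
      rw [mem_range] at hl
      refine ⟨hpw1 l, ?_, ?_⟩
      · show (2 : ℤ) ^ l ≤ ((2 ^ k : ℕ) : ℤ)
        push_cast
        exact hpwk l hl
      · refine (habs l).trans ?_
        calc (2 : ℤ) ^ l ≤ (x : ℤ) ^ l := pow_le_pow_left₀ (by norm_num) hx2 l
          _ ≤ (x : ℤ) ^ (2 ^ k) := pow_le_pow_right₀ hx1 (hl.le.trans Nat.lt_two_pow_self.le))
    (hKB i hi) (hKB j hj) (hp1 i) (hp1 j)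
    (by
      show (2 : ℤ) ^ i * (δ * (2 ^ j - 1)) - 2 ^ j * (δ * (2 ^ i - 1)) ≠ 0
      have e : (2 : ℤ) ^ i * (δ * (2 ^ j - 1)) - 2 ^ j * (δ * (2 ^ i - 1)) = δ * (2 ^ j - 2 ^ i) := by ring
      rw [e]
      apply mul_ne_zero
      · rcases hδ with rfl | rfl <;> norm_num
      · intro h0
        exact hij (hpwinj i j (by linarith)))
    (by
      intro p hp
      refine ⟨-δ, fun g hg => ?_⟩
      rw [hG, mem_image] at hg
      obtain ⟨l, hl, rfl⟩ := hg
      have e : val (F l) (-δ) = -δ := by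
        show (2 : ℤ) ^ l * (-δ) + δ * (2 ^ l - 1) = -δ
        ring
      rw [e]
      intro hd
      have h1 : (p : ℤ) ∣ 1 := by
        rcases hδ with rfl | rfl
        · exact (dvd_neg.1 hd)
        · simpa using hd
      have h2 : p ∣ 1 := by exact_mod_cast h1
      exact hp.one_lt.ne' (Nat.dvd_one.1 h2))).1
  refine hmain.trans (card_le_ncard x ?_ ?_)
  · intro n hn
    unfold Sys at hn
    rw [mem_filter, mem_Ioc] at hn
    obtain ⟨⟨h1, h2⟩, h3, h4, h5, h6⟩ := hn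
    have hn1 : 1 ≤ n := by omega
    obtain ⟨i1, i2, i3⟩ := nat_val (hval i n hn1)
    obtain ⟨j1, j2, j3⟩ := nat_val (hval j n hn1)
    rw [i1] at h3
    rw [j1] at h4
    refine ⟨h1, h2, h3, h4, ?_, ?_⟩
    · intro q hq
      exact h5 q (Nat.prime_of_mem_primeFactors hq) ((j3 q).2 (Nat.dvd_of_mem_primeFactors hq))
    · intro l hl
      obtain ⟨l1, l2, l3⟩ := nat_val (hval l n hn1)
      obtain ⟨g1, g2⟩ := h6 (F l) (hmem l hl)
      rw [l2] at g1
      exact ⟨g1, fun q hq => g2 q (Nat.prime_of_mem_primeFactors hq) ((l3 q).2 (Nat.dvd_of_mem_primeFactors hq))⟩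
  · intro n hn
    exact hn.2.1

end Pool.Agent.Results.MP_c183ae_nt.ChenCunningham
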