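import Pool.Agent.H76.NA.Sys
import Pool.Agent.Results.MP_c183ae_nt.ChenCunningham

/-!
# Szemerédi's theorem, with narrow progressions, for Chen type Cunningham chains
-/

set_option autoImplicit false

namespace Pool.Agent.Results.MP_c183ae_nt.SzemerediCunningham

open Finset Pool.Agent.H76.CL Pool.Agent.H76.NA
open Pool.Agent.Results.MP_c183ae_nt.ChenCunningham (iter_first iter_second)

/-- **Szemerédi's theorem for Chen type Cunningham chains.**  Let `k ≥ 2` and `θ > 0`.  There are `ε > 0` and `r` such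
that for all `m` and `δ > 0` there are `C` and `x₀` with the following property.  Let `x ≥ x₀` and `y ≤ (1 - θ) x`, let
`f` be one of the maps `q ↦ 2 q + 1` and `q ↦ 2 q - 1`, let `i ≠ j` be below `k`, and let `T` be the set of the integers
`y < n ≤ x` for which in the chain `n, f n, ..., f^(k-1) n` the term with the index `i` is a prime, the term with the
index `j` is a prime or a product of two primes, both `≥ x ^ (1 / 9)`, and all the `k` terms have at most `r` prime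
factors, all of them `≥ x ^ ε`.  Then every subset `S` of `T` with at least `δ |T|` elements contains an arithmetic
progression of `m` terms with a difference `1 ≤ d ≤ (log x) ^ C`. -/
theorem result : ∀ k : ℕ, 2 ≤ k → ∀ θ : ℝ, 0 < θ →
    ∃ ε : ℝ, 0 < ε ∧ ∃ r : ℕ, ∀ (m : ℕ) (δ : ℝ), 0 < δ → ∃ C x₀ : ℕ, ∀ x : ℕ, x₀ ≤ x → ∀ y : ℕ,
      (y : ℝ) + θ * x ≤ x →
      ∀ f : ℕ → ℕ, (f = (fun q => 2 * q + 1) ∨ f = (fun q => 2 * q - 1)) →
      ∀ i < k, ∀ j < k, i ≠ j →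
      ∀ T : Set ℕ, T = {n : ℕ | y < n ∧ n ≤ x ∧ (f^[i] n).Prime ∧
            (f^[j] n).primeFactorsList.length ≤ 2 ∧ (∀ q ∈ (f^[j] n).primeFactors, (x : ℝ) ^ (1 / 9 : ℝ) ≤ q) ∧
            ∀ l < k, (f^[l] n).primeFactorsList.length ≤ r ∧
              ∀ q ∈ (f^[l] n).primeFactors, (x : ℝ) ^ ε ≤ q} →
      ∀ S : Set ℕ, S ⊆ T → δ * (T.ncard : ℝ) ≤ (S.ncard : ℝ) →
        ∃ a d : ℕ, 1 ≤ d ∧ (d : ℝ) ≤ Real.log x ^ C ∧ ∀ t < m, a + t * d ∈ S := by
  classical
  intro k hk θ hθ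
  obtain ⟨ε, hε0, r, hh⟩ := szem_lin k (2 ^ k) hk Nat.one_le_two_pow θ hθ
  refine ⟨ε, hε0, r, fun m δ' hδ' => ?_⟩
  obtain ⟨C, B₀, hB₀⟩ := hh m δ' hδ'
  refine ⟨C, B₀ + 2, ?_⟩
  intro x hx y hy f hf i hi j hj hij T hT
  obtain ⟨δ, hδ, hfv⟩ : ∃ δ : ℤ, (δ = 1 ∨ δ = -1) ∧ ∀ l n : ℕ, 1 ≤ n →
      ((f^[l] n : ℕ) : ℤ) = 2 ^ l * n + δ * (2 ^ l - 1) := by
    rcases hf with rfl | rfl
    · refine ⟨1, Or.inl rfl, fun l n _ => ?_⟩
      rw [iter_first]
      ring
    · refine ⟨-1, Or.inr rfl, fun l n hn => ?_⟩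
      rw [(iter_second l hn).1]
      ring
  set F : ℕ → ℤ × ℤ := fun l => ((2 : ℤ) ^ l, δ * (2 ^ l - 1)) with hF
  set G : Finset (ℤ × ℤ) := (range k).image F with hG
  have hmem : ∀ l < k, F l ∈ G := fun l hl => mem_image_of_mem _ (mem_range.2 hl)
  have hval : ∀ l n : ℕ, 1 ≤ n → val (F l) n = ((f^[l] n : ℕ) : ℤ) := by
    intro l n hn
    rw [hfv l n hn]
    rfl
  have hpw1 : ∀ l : ℕ, (1 : ℤ) ≤ 2 ^ l := fun l => one_le_pow₀ (by norm_num)
  have hpwk : ∀ l < k, (2 : ℤ) ^ l ≤ 2 ^ k := fun l hl => pow_le_pow_right₀ (by norm_num) hl.le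
  have hpwinj : ∀ a b : ℕ, (2 : ℤ) ^ a = 2 ^ b → a = b := by
    intro a b hab
    have h1 : (2 : ℕ) ^ a = 2 ^ b := by exact_mod_cast hab
    exact Nat.pow_right_injective (le_refl 2) h1
  have hinj : Function.Injective F := by
    intro a b hab
    rw [hF] at hab
    simp only [Prod.mk.injEq] at hab
    exact hpwinj a b hab.1
  have habs : ∀ l : ℕ, |(F l).2| ≤ 2 ^ l := by
    intro l
    have h1 := hpw1 l
    show |δ * (2 ^ l - 1)| ≤ 2 ^ l
    rw [abs_mul]
    have h2 : |δ| = 1 := by rcases hδ with rfl | rfl <;> simp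
    rw [h2, one_mul, abs_of_nonneg (by linarith)]
    linarith
  have hx1 : (1 : ℤ) ≤ x := by exact_mod_cast (by omega : 1 ≤ x)
  have hx2 : (2 : ℤ) ≤ x := by exact_mod_cast (by omega : 2 ≤ x)
  have hKB : ∀ l < k, |(F l).2| ≤ ((2 ^ k : ℕ) : ℤ) * x := by
    intro l hl
    refine (habs l).trans ((hpwk l hl).trans ?_)
    push_cast
    exact le_mul_of_one_le_right (by positivity) hx1
  have hp1 : ∀ l : ℕ, 1 ≤ (F l).1 + (F l).2 := by
    intro l
    show 1 ≤ (2 : ℤ) ^ l + δ * (2 ^ l - 1)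
    have := hpw1 l
    rcases hδ with rfl | rfl
    · linarith
    · linarith
  have hmain := hB₀ x (by omega) y hy G (by
      refine card_image_le.trans ?_
      rw [card_range]) (F i) (hmem i hi) (F j) (hmem j hj)
    (by
      intro g hg
      rw [hG, mem_image] at hg
      obtain ⟨l, hl, rfl⟩ := hg
      rw [mem_range] at hl
      refine ⟨?_, ?_, ?_⟩
      · show (2 : ℤ) ^ l ≠ 0
        positivity
      · show |(2 : ℤ) ^ l| ≤ ((2 ^ k : ℕ) : ℤ)
        rw [abs_of_nonneg (by positivity)]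
        push_cast
        exact hpwk l hl
      · refine (habs l).trans ?_
        calc (2 : ℤ) ^ l ≤ (x : ℤ) ^ l := pow_le_pow_left₀ (by norm_num) hx2 l
          _ ≤ (x : ℤ) ^ (2 ^ k) := pow_le_pow_right₀ hx1 (hl.le.trans Nat.lt_two_pow_self.le))
    (hKB i hi) (hKB j hj)
    (by
      show (2 : ℤ) ^ i * (δ * (2 ^ j - 1)) - 2 ^ j * (δ * (2 ^ i - 1)) ≠ 0
      have e : (2 : ℤ) ^ i * (δ * (2 ^ j - 1)) - 2 ^ j * (δ * (2 ^ i - 1)) = δ * (2 ^ j - 2 ^ i) := by ring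
      rw [e]
      apply mul_ne_zero
      · rcases hδ with rfl | rfl <;> norm_num
      · intro h0
        exact hij (hpwinj i j (by linarith)))
    (by
      intro p hp
      refine ⟨-δ, fun g hg => ?_⟩
      rw [hG, mem_image] at hg
      obtain ⟨l, hl, rfl⟩ := hg
      have e : val (F l) (-δ) = -δ := by
        show (2 : ℤ) ^ l * (-δ) + δ * (2 ^ l - 1) = -δ
        ring
      rw [e]
      intro hd
      have h1 : (p : ℤ) ∣ 1 := by
        rcases hδ with rfl | rfl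
        · exact (dvd_neg.1 hd)
        · simpa using hd
      have h2 : p ∣ 1 := by exact_mod_cast h1
      exact hp.one_lt.ne' (Nat.dvd_one.1 h2))
  have hne : ∀ l n : ℕ, 1 ≤ n → f^[l] n ≠ 0 := by
    intro l n hn h0
    rcases hf with rfl | rfl
    · have h1 := iter_first l n
      rw [h0] at h1
      have h2 : (1 : ℤ) ≤ 2 ^ l := hpw1 l
      have h3 : (0 : ℤ) ≤ 2 ^ l * n := by positivity
      push_cast at h1
      have h4 : (1 : ℤ) ≤ n := by exact_mod_cast hn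
      nlinarith
    · have h1 := (iter_second l hn).2
      omega
  have habs' : ∀ l n : ℕ, 1 ≤ n → (val (F l) n).natAbs = f^[l] n := by
    intro l n hn
    rw [hval l n hn, Int.natAbs_natCast]
  apply to_set (U := SysA (F i) (F j) G y x r ε) ?_ hmain
  rw [hT]
  ext n
  rw [Set.mem_ofPred_eq, mem_coe, mem_SysA]
  constructor
  · rintro ⟨h1, h2, h3, h4, h5, h6⟩
    have hn1 : 1 ≤ n := by omega
    refine ⟨⟨h1, h2⟩, by rwa [habs' i n hn1], by rwa [habs' j n hn1], ?_, ?_⟩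
    · exact (fac_iff (habs' j n hn1) (hne j n hn1) _).2 h5
    · intro g hg
      rw [hG, mem_image] at hg
      obtain ⟨l, hl, rfl⟩ := hg
      rw [mem_range] at hl
      exact ⟨by rw [habs' l n hn1]; exact (h6 l hl).1, (fac_iff (habs' l n hn1) (hne l n hn1) _).2 (h6 l hl).2⟩
  · rintro ⟨⟨h1, h2⟩, h3, h4, h5, h6⟩
    have hn1 : 1 ≤ n := by omega
    rw [habs' i n hn1] at h3
    rw [habs' j n hn1] at h4
    refine ⟨h1, h2, h3, h4, (fac_iff (habs' j n hn1) (hne j n hn1) _).1 h5, fun l hl => ?_⟩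
    have h7 := h6 (F l) (hmem l hl)
    rw [habs' l n hn1] at h7
    exact ⟨h7.1, (fac_iff (habs' l n hn1) (hne l n hn1) _).1 h7.2⟩

end Pool.Agent.Results.MP_c183ae_nt.SzemerediCunningham
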